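import Pool.Agent.Lib.MP_fa7d23_ag.Ten.Main

set_option autoImplicit false

namespace Pool.Agent.Results.MP_fa7d23_ag.TenPoints

open MvPolynomial

/-- The maximal ideal of the point `[x : y : 1]` in the affine chart `z = 1`. -/
noncomputable def mx (p : ℂ × ℂ) : Ideal (MvPolynomial (Fin 2) ℂ) :=
  Ideal.span {X 0 - C p.1, X 1 - C p.2}

/-- Dehomogenisation `f(x, y, z) ↦ f(x, y, 1)`. -/
noncomputable def deh : MvPolynomial (Fin 3) ℂ →ₐ[ℂ] MvPolynomial (Fin 2) ℂ := aeval ![X 0, X 1, 1]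

/-- The Picard group of the blow-up: `(d, a)` is the class `d H - ∑ a_i E_i`. -/
abbrev Pic (r : ℕ) : Type := ℤ × (Fin r → ℤ)

/-- The intersection form. -/
def dot {r : ℕ} (D D' : Pic r) : ℤ := D.1 * D'.1 - ∑ i, D.2 i * D'.2 i

/-- The canonical class `-3 H + ∑ E_i`. -/
def KX (r : ℕ) : Pic r := (-3, fun _ => -1)

/-- The exceptional class `E_i`. -/
def E {r : ℕ} (i : Fin r) : Pic r := (0, -Pi.single i 1)

/-- Global sections of `d H - ∑ a_i E_i`: forms of degree `d` with multiplicity at least `a_i`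
at `p_i` (no condition if `a_i ≤ 0`), and `0` if `d < 0`. -/
noncomputable def H0 {r : ℕ} (p : Fin r → ℂ × ℂ) (D : Pic r) :
    Submodule ℂ (MvPolynomial (Fin 3) ℂ) :=
  if 0 ≤ D.1 then
    homogeneousSubmodule (Fin 3) ℂ D.1.toNat ⊓
      ⨅ i, ((mx (p i) ^ (D.2 i).toNat).restrictScalars ℂ).comap deh.toLinearMap
  else ⊥

open Pool.Agent.Lib.MP_fa7d23_ag Pool.Agent.Lib.MP_fa7d23_ag.Ten

lemma mem_iff (x y : ℂ) (n μ : ℕ) (f : R) (hf : f.IsHomogeneous n) :
    deh f ∈ mx (x, y) ^ μ ↔ f ∈ I ![x, y, 1] ^ μ := by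
  have m0 : (X 0 - C x : MvPolynomial (Fin 2) ℂ) ∈ mx (x, y) := Ideal.subset_span (Or.inl rfl)
  have m1 : (X 1 - C y : MvPolynomial (Fin 2) ℂ) ∈ mx (x, y) := Ideal.subset_span (Or.inr rfl)
  constructor
  · intro h
    let tr : MvPolynomial (Fin 2) ℂ →ₐ[ℂ] Polynomial (Polynomial ℂ) :=
      aeval ![Polynomial.C (Polynomial.X + Polynomial.C x),
        Polynomial.X + Polynomial.C (Polynomial.C y)]
    have e1 : tay x y f = tr (deh f) := by
      have : tay x y = tr.comp deh := by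
        apply MvPolynomial.algHom_ext
        intro j
        fin_cases j <;> simp [tay, deh, tr]
      exact DFunLike.congr_fun this f
    have e2 : Ideal.map tr (mx (x, y)) ≤ Ideal.span {Polynomial.C Polynomial.X, Polynomial.X} := by
      rw [Ideal.map_le_iff_le_comap, mx, Ideal.span_le]
      rintro _ (rfl | rfl)
      · have : tr (X 0 - C x) = Polynomial.C Polynomial.X := by simp [tr]
        rw [SetLike.mem_coe, Ideal.mem_comap, this]
        exact Ideal.subset_span (Or.inl rfl)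
      · have : tr (X 1 - C y) = Polynomial.X := by simp [tr]
        rw [SetLike.mem_coe, Ideal.mem_comap, this]
        exact Ideal.subset_span (Or.inr rfl)
    have h2 : tr (deh f) ∈ Ideal.map tr (mx (x, y) ^ μ) := Ideal.mem_map_of_mem _ h
    rw [Ideal.map_pow] at h2
    refine mem_of_tay hf fun i j hij => ?_
    rw [e1]
    exact cf_low μ _ (Ideal.pow_right_mono e2 μ h2) i j hij
  · intro h
    refine map_mem_pow deh (mx (x, y)) _ (fun a b => ?_) μ f h
    have m2 : deh (C x * X 1 - C y * X 0) ∈ mx (x, y) := by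
      have : deh (C x * X 1 - C y * X 0) = C x * (X 1 - C y) - C y * (X 0 - C x) := by
        simp [deh]
        ring
      rw [this]
      exact Ideal.sub_mem _ (Ideal.mul_mem_left _ _ m1) (Ideal.mul_mem_left _ _ m0)
    have m3 : deh (C y * X 0 - C x * X 1) ∈ mx (x, y) := by
      rw [← neg_sub, map_neg]
      exact (mx (x, y)).neg_mem m2
    have n0 := (mx (x, y)).neg_mem m0
    have n1 := (mx (x, y)).neg_mem m1
    rw [neg_sub] at n0 n1
    fin_cases a <;> fin_cases b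
    · simp
    · exact m2
    · simpa [deh] using n0
    · exact m3
    · simp
    · simpa [deh] using n1
    · simpa [deh] using m0
    · simpa [deh] using m1
    · simp

lemma H0_eq {r : ℕ} (x y : Fin r → ℂ) (D : Pic r) (h : 0 ≤ D.1) : H0 (fun i => (x i, y i)) D =
    W (fun i => ![x i, y i, 1]) D.1.toNat (fun i => (D.2 i).toNat) := by
  ext f
  rw [H0, if_pos h, mem_W, Submodule.mem_inf, Submodule.mem_iInf, mem_homogeneousSubmodule]
  refine and_congr_right fun hf => forall_congr' fun i => ?_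
  exact mem_iff _ _ _ _ f hf

lemma nonneg_of_ne {r : ℕ} {p : Fin r → ℂ × ℂ} {D : Pic r} (h : H0 p D ≠ ⊥) : 0 ≤ D.1 := by
  by_contra h'
  exact h (by rw [H0, if_neg h'])

/-- For every `r ≥ 10` there are `r` distinct points of the complex plane and a class `L` on the
blow-up with `L ^ 2 = 1` that is effective and nef, fails condition (B), and has `h^2 = 0` and
`h^0 > χ` for every multiple. -/
theorem result (r : ℕ) (hr : 10 ≤ r) : ∃ (p : Fin r → ℂ × ℂ) (L : Pic r),
    Function.Injective p ∧ dot L L = 1 ∧ H0 p L ≠ ⊥ ∧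
    ((∀ i, 0 ≤ dot L (E i)) ∧ ∀ D : Pic r, (∃ g ∈ H0 p D, Irreducible g) → 0 ≤ dot L D) ∧
    (¬ ∃ Cv : Pic r, Cv ≠ 0 ∧ H0 p Cv ≠ ⊥ ∧ H0 p (L - Cv) ≠ ⊥ ∧
      0 < 2 + dot Cv Cv + dot (KX r) Cv ∧ dot L Cv = 0) ∧
    ∀ m : ℕ, 1 ≤ m → H0 p (KX r - m • L) = ⊥ ∧
      2 + dot (m • L) (m • L) - dot (KX r) (m • L) <
        2 * (Module.finrank ℂ (H0 p (m • L)) : ℤ) := by
  obtain ⟨s, rfl⟩ := Nat.exists_eq_add_of_le hr
  have hs := sum_am s
  have hq := sum_am_sq s
  zify at hs hq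
  refine ⟨fun i => (xs s i, ys s i), (21, fun i => am s i), pts_inj s, ?_, ?_, ⟨?_, ?_⟩, ?_, ?_⟩
  · simp only [dot, hq]
    norm_num
  · rw [Submodule.ne_bot_iff]
    refine ⟨GG, ?_, GG_ne⟩
    rw [H0_eq _ _ _ (by norm_num)]
    exact GG_W s
  · intro i
    simp [dot, E, Pi.single_apply]
  · rintro ⟨e, γ⟩ ⟨g, hg, hirr⟩
    have he : 0 ≤ e := nonneg_of_ne ((Submodule.ne_bot_iff _).2 ⟨g, hg, hirr.ne_zero⟩)
    rw [H0_eq _ _ _ he] at hg
    have h := nef hg hirr
    have h1 : ∑ i, (am s i : ℤ) * γ i ≤ ∑ i, (am s i : ℤ) * (γ i).toNat :=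
      Finset.sum_le_sum fun i _ =>
        mul_le_mul_of_nonneg_left (Int.self_le_toNat _) (Int.natCast_nonneg _)
    zify at h
    rw [Int.toNat_of_nonneg he] at h
    simp only [dot]
    omega
  · rintro ⟨⟨e, γ⟩, hne, h1, h2, hgen, hdot⟩
    have he : 0 ≤ e := nonneg_of_ne h1
    have he' : 0 ≤ 21 - e := nonneg_of_ne h2
    obtain ⟨f, hf, h0⟩ := (Submodule.ne_bot_iff _).1 h1
    obtain ⟨f', hf', h0'⟩ := (Submodule.ne_bot_iff _).1 h2
    rw [H0_eq _ _ _ he] at hf
    rw [H0_eq _ _ _ he'] at hf'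
    simp only [dot, KX, neg_mul, one_mul, Finset.sum_neg_distrib] at hgen hdot
    have h3 := notB (e := e.toNat) (e' := (21 - e).toNat) (γ := γ) (by omega) h0 h0' hf hf'
      (by rw [Int.toNat_of_nonneg he]; omega) (by rw [Int.toNat_of_nonneg he]; omega)
    exact hne (Prod.ext (by have := h3.1; change e = 0; omega) h3.2)
  · intro m hm
    constructor
    · rw [H0, if_neg]
      change ¬ 0 ≤ (-3 : ℤ) - m • (21 : ℤ)
      rw [nsmul_eq_mul]
      omega
    · obtain ⟨m, rfl⟩ : ∃ m', m = m' + 1 := ⟨m - 1, by omega⟩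
      have h1 := special s m
      have e1 : (m + 1) • ((21, fun i => am s i) : Pic (10 + s)) =
          ((((m + 1) * 21 : ℕ) : ℤ), fun i => (((m + 1) * am s i : ℕ) : ℤ)) := by
        ext <;> simp
      have e2 : ∑ i, ((m : ℤ) + 1) * am s i * ((m + 1) * am s i) = (m + 1) ^ 2 * 440 := by
        rw [← hq, Finset.mul_sum]
        exact Finset.sum_congr rfl fun i _ => by ring
      have e3 : ∑ i, (-1 : ℤ) * ((m + 1) * am s i) = -((m + 1) * 66) := by
        rw [← hs, Finset.mul_sum, ← Finset.sum_neg_distrib]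
        exact Finset.sum_congr rfl fun i _ => by ring
      rw [e1, H0_eq _ _ _ (Int.natCast_nonneg _)]
      simp only [dot, KX, Int.toNat_natCast]
      zify at h1
      simp only [Nat.cast_mul, Nat.cast_add, Nat.cast_one, Nat.cast_ofNat, e2, e3]
      nlinarith

end Pool.Agent.Results.MP_fa7d23_ag.TenPoints
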